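import Pool.Agent.Helper23.MV.StP

/-!
# Project MV, module AAM: Moebius blocks at good heights
-/

set_option autoImplicit false

namespace Pool.Agent.Helper79.MV

open Finset ArithmeticFunction
open Pool.Agent.Helper2.MR (ch)
open Pool.Agent.Helper23.GK (AA cmu blk2)
open Pool.Agent.Helper23.MV

/-- partial summation with the weight `1/n` -/
private theorem psum_aam (f : ℕ → ℂ) (a b : ℕ) (hab : a ≤ b) :
    ∑ n ∈ Ioc a b, f n / n = (∑ n ∈ Ioc 0 b, f n) / ((b : ℂ) + 1) -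
      (∑ n ∈ Ioc 0 a, f n) / ((a : ℂ) + 1) +
      ∑ n ∈ Ioc a b, (∑ k ∈ Ioc 0 n, f k) * (1 / (n : ℂ) - 1 / ((n : ℂ) + 1)) := by
  induction b, hab using Nat.le_induction with
  | base => simp
  | succ b hab ih =>
    have h1 : Ioc a (b + 1) = insert (b + 1) (Ioc a b) := by
      ext x
      simp only [mem_Ioc, mem_insert]
      omega
    have h2 : b + 1 ∉ Ioc a b := by simp
    have h3 : Ioc 0 (b + 1) = insert (b + 1) (Ioc 0 b) := by
      ext x
      simp only [mem_Ioc, mem_insert]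
      omega
    have h4 : b + 1 ∉ Ioc 0 b := by simp
    rw [h1, sum_insert h2, sum_insert h2, ih, h3, sum_insert h4]
    have h5 : (b : ℂ) + 1 ≠ 0 := by exact_mod_cast Nat.succ_ne_zero b
    have h6 : (b : ℂ) + 1 + 1 ≠ 0 := by exact_mod_cast Nat.succ_ne_zero (b + 1)
    push_cast
    field_simp
    ring

private theorem bound_aam (f : ℕ → ℂ) (a : ℕ) (B : ℝ) (ha : 1 ≤ a)
    (h : ∀ N, a ≤ N → N ≤ 2 * a → ‖∑ n ∈ Ioc 0 N, f n‖ ≤ N * B) :
    ‖∑ n ∈ Ioc a (2 * a), f n / n‖ ≤ 3 * B := by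
  have ha' : (0 : ℝ) < a := by exact_mod_cast ha
  have hB : 0 ≤ B := by
    have h1 := (norm_nonneg _).trans (h a le_rfl (by omega))
    exact nonneg_of_mul_nonneg_right h1 ha'
  have key : ∀ N : ℕ, a ≤ N → N ≤ 2 * a →
      ‖(∑ n ∈ Ioc 0 N, f n) / ((N : ℂ) + 1)‖ ≤ B := by
    intro N h1 h2
    have h3 : (0 : ℝ) < (N : ℝ) + 1 := by positivity
    have h4 : ‖(N : ℂ) + 1‖ = (N : ℝ) + 1 := by
      have : (N : ℂ) + 1 = (((N : ℝ) + 1 : ℝ) : ℂ) := by push_cast; rfl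
      rw [this, Complex.norm_real, Real.norm_of_nonneg h3.le]
    rw [norm_div, h4, div_le_iff₀ h3]
    refine (h N h1 h2).trans ?_
    nlinarith only [hB]
  have key2 : ∀ n ∈ Ioc a (2 * a), ‖(∑ k ∈ Ioc 0 n, f k) * (1 / (n : ℂ) - 1 / ((n : ℂ) + 1))‖
      ≤ B / a := by
    intro n hn
    obtain ⟨h1, h2⟩ := mem_Ioc.1 hn
    have hn0 : (0 : ℝ) < n := by exact_mod_cast (by omega : 0 < n)
    have h3 : (0 : ℝ) < (n : ℝ) + 1 := by positivity
    have h4 : (1 / (n : ℂ) - 1 / ((n : ℂ) + 1)) = ((1 / ((n : ℝ) * (n + 1)) : ℝ) : ℂ) := by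
      have h5 : (n : ℂ) ≠ 0 := by exact_mod_cast (by omega : n ≠ 0)
      have h6 : (n : ℂ) + 1 ≠ 0 := by exact_mod_cast Nat.succ_ne_zero n
      push_cast
      field_simp
      ring
    rw [norm_mul, h4, Complex.norm_real, Real.norm_of_nonneg (by positivity)]
    have h7 : ‖∑ k ∈ Ioc 0 n, f k‖ * (1 / ((n : ℝ) * (n + 1))) ≤
        (n * B) * (1 / ((n : ℝ) * (n + 1))) :=
      mul_le_mul_of_nonneg_right (h n h1.le h2) (by positivity)
    refine h7.trans ?_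
    have h8 : (n : ℝ) * B * (1 / ((n : ℝ) * (n + 1))) = B / (n + 1) := by
      field_simp
    rw [h8]
    refine div_le_div_of_nonneg_left hB ha' ?_
    have : (a : ℝ) ≤ n := by exact_mod_cast h1.le
    linarith only [this]
  rw [psum_aam f a (2 * a) (by omega)]
  have h9 : ‖∑ n ∈ Ioc a (2 * a), (∑ k ∈ Ioc 0 n, f k) * (1 / (n : ℂ) - 1 / ((n : ℂ) + 1))‖
      ≤ B := by
    refine (norm_sum_le _ _).trans ((sum_le_sum key2).trans ?_)
    rw [sum_const, Nat.card_Ioc, nsmul_eq_mul]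
    have : ((2 * a - a : ℕ) : ℝ) = a := by
      have : 2 * a - a = a := by omega
      rw [this]
    rw [this]
    exact le_of_eq (by field_simp)
  have h10 := key (2 * a) (by omega) le_rfl
  have h11 := key a le_rfl (by omega)
  refine (norm_add_le _ _).trans ?_
  have h12 := norm_sub_le ((∑ n ∈ Ioc 0 (2 * a), f n) / (((2 * a : ℕ) : ℂ) + 1))
    ((∑ n ∈ Ioc 0 a, f n) / ((a : ℂ) + 1))
  linarith only [h9, h10, h11, h12]

/-- AAM (Moebius blocks at good heights) -/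
theorem hAam : StMgd → StAam := by
  intro hM
  obtain ⟨η₁, h1, h2, h3⟩ := hM
  refine ⟨η₁, h1, h2, fun η hη hη1 => ?_⟩
  obtain ⟨X0, hX0, h4⟩ := h3 η hη hη1
  refine ⟨max X0 (2 ^ (20 : ℕ)), le_max_of_le_left hX0, ?_⟩
  intro X c τ e hX hc hτ hc1 hz hlo hhi
  have hXX : X0 ≤ X := (le_max_left _ _).trans hX
  have hX20 : (2 : ℝ) ^ (20 : ℕ) ≤ X := (le_max_right _ _).trans hX
  have hXpos : 0 < X := lt_of_lt_of_le (by positivity) hX20
  have hX1 : (1 : ℝ) ≤ X := le_trans (by norm_num) hX20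
  -- X^(1/20) ≥ 2
  have h20 : (2 : ℝ) ≤ X ^ (1 / 20 : ℝ) := by
    have h5 : (2 : ℝ) = ((2 : ℝ) ^ (20 : ℕ)) ^ (1 / 20 : ℝ) := by
      rw [← Real.rpow_natCast, ← Real.rpow_mul (by norm_num)]
      norm_num
    rw [h5]
    exact Real.rpow_le_rpow (by positivity) hX20 (by norm_num)
  have h21 : 2 * X ^ (1 / 5 : ℝ) ≤ X ^ (1 / 4 : ℝ) := by
    have h5 : X ^ (1 / 4 : ℝ) = X ^ (1 / 20 : ℝ) * X ^ (1 / 5 : ℝ) := by
      rw [← Real.rpow_add hXpos]
      norm_num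
    rw [h5]
    exact mul_le_mul_of_nonneg_right h20 (Real.rpow_nonneg hXpos.le _)
  have he : e ≠ 0 := by
    rintro rfl
    have h5 : (1 : ℝ) ≤ X ^ (1 / 5 : ℝ) := Real.one_le_rpow hX1 (by norm_num)
    rw [pow_zero] at hlo
    linarith only [h5, h21, hlo]
  obtain ⟨k, rfl⟩ := Nat.exists_eq_succ_of_ne_zero he
  have h22 : X ^ (1 / 5 : ℝ) ≤ (2 : ℝ) ^ k := by
    have h5 : (2 : ℝ) ^ (Nat.succ k) = 2 * 2 ^ k := by rw [pow_succ]; ring
    rw [h5] at hlo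
    linarith only [h21, hlo]
  set B : ℝ := X ^ (-(η / 25)) with hB
  have hB0 : 0 ≤ B := Real.rpow_nonneg hXpos.le _
  have key := bound_aam (fun n => cmu c.χ n * ch τ n) (2 ^ k) B Nat.one_le_two_pow (by
    intro N hN1 hN2
    have hN1' : (2 : ℝ) ^ k ≤ N := by exact_mod_cast hN1
    have hN2' : (N : ℝ) ≤ 2 ^ (Nat.succ k) := by
      rw [pow_succ]
      have : (N : ℝ) ≤ 2 * 2 ^ k := by exact_mod_cast hN2
      linarith only [this]
    exact h4 X c τ N hXX hc hτ hc1 hz (h22.trans hN1') (hN2'.trans hhi))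
  have h23 : AA (cmu c.χ) (Nat.succ k) τ =
      ∑ n ∈ Ioc (2 ^ k) (2 * 2 ^ k), cmu c.χ n * ch τ n / n := by
    unfold AA blk2
    rw [if_neg (Nat.succ_ne_zero k)]
    have h5 : 2 ^ (Nat.succ k) = 2 * 2 ^ k := by rw [pow_succ]; ring
    rw [Nat.succ_sub_one, h5]
  rw [h23]
  refine key.trans ?_
  linarith only [hB0]

end Pool.Agent.Helper79.MV
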