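import Pool.Agent.Helper23.MV.StC

/-!
# Project MV, module TAV: vanishing of Gauss sums
-/

set_option autoImplicit false

namespace Pool.Agent.Helper79.MV

open Finset
open Pool.Agent.Helper48.BK (ex)
open Pool.Agent.Helper23.MV

private theorem ex_add_tav (x y : ℝ) : ex (x + y) = ex x * ex y := by
  unfold ex
  rw [← Complex.exp_add]
  congr 1
  push_cast
  ring

private theorem ex_one_tav : ex 1 = 1 := by
  unfold ex
  have h : (2 * Real.pi * ((1 : ℝ) : ℂ) * Complex.I : ℂ) = 2 * Real.pi * Complex.I := by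
    push_cast
    ring
  first
    | (rw [h]; exact Complex.exp_two_pi_mul_I)
    | (convert Complex.exp_two_pi_mul_I using 2; push_cast; ring)

/-- shifts of a periodic sum -/
private theorem shift_tav (F : ℕ → ℂ) (q : ℕ) (hF : ∀ b, F (b + q) = F b) (k : ℕ) :
    ∑ b ∈ range q, F (b + k) = ∑ b ∈ range q, F b := by
  induction k with
  | zero => rfl
  | succ k ih =>
    rw [← ih]
    have h1 := sum_range_succ (fun b => F (b + k)) q
    have h2 := sum_range_succ' (fun b => F (b + k)) q
    have h3 : F (q + k) = F (0 + k) := by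
      rw [add_comm q k, hF, zero_add]
    have h4 : ∀ b, F (b + 1 + k) = F (b + (k + 1)) := by
      intro b
      congr 1
      ring
    simp only [h4] at h2
    rw [h1, h3] at h2
    exact (add_right_cancel h2).symm

private theorem van_tav (c : PCh) (p m : ℕ) (hp : p.Prime) (hm : m ≠ 0)
    (hpm : p ∣ c.r * m) : ta c (p * (c.r * m)) = 0 := by
  set q' : ℕ := c.r * m with hq'
  set q : ℕ := p * q' with hq
  have hq'0 : q' ≠ 0 := Nat.mul_ne_zero c.hr hm
  have hq0 : q ≠ 0 := Nat.mul_ne_zero hp.ne_zero hq'0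
  have hcop : ∀ b k : ℕ, Nat.Coprime (b + k * q') q ↔ Nat.Coprime b q := by
    intro b k
    have h1 : ∀ x : ℕ, Nat.Coprime x q ↔ Nat.Coprime x q' := by
      intro x
      rw [hq, Nat.coprime_mul_iff_right]
      constructor
      · exact fun h => h.2
      · intro h
        exact ⟨Nat.Coprime.coprime_dvd_right hpm h, h⟩
    rw [h1, h1]
    simp
  have hev : ∀ b k : ℕ, c.ev (b + k * q') = c.ev b := by
    intro b k
    unfold PCh.ev
    congr 1
    push_cast
    have : ((q' : ℕ) : ZMod c.r) = 0 := by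
      rw [ZMod.natCast_eq_zero_iff]
      exact ⟨m, hq'⟩
    rw [this, mul_zero, add_zero]
  have hqR : (q : ℝ) ≠ 0 := by exact_mod_cast hq0
  have hpR : (p : ℝ) ≠ 0 := by exact_mod_cast hp.ne_zero
  have hq'R : (q' : ℝ) ≠ 0 := by exact_mod_cast hq'0
  have hdiv : (q' : ℝ) / q = 1 / p := by
    rw [hq]
    push_cast
    field_simp
  set F : ℕ → ℂ := fun b => if Nat.Coprime b q then
    (starRingEnd ℂ) (c.ev b) * ex ((b : ℝ) / q) else 0 with hF
  have hS : ta c q = ∑ b ∈ range q, F b := by
    unfold ta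
    rw [sum_filter]
  have hF1 : ∀ b, F (b + q') = ex (1 / p) * F b := by
    intro b
    simp only [hF]
    have h1 := hcop b 1
    have h2 := hev b 1
    rw [one_mul] at h1 h2
    by_cases h : Nat.Coprime b q
    · rw [if_pos h, if_pos (h1.2 h), h2]
      have h3 : (((b + q' : ℕ) : ℝ)) / q = (b : ℝ) / q + 1 / p := by
        push_cast
        rw [add_div, hdiv]
      rw [h3, ex_add_tav]
      ring
    · rw [if_neg h, if_neg (fun h' => h (h1.1 h')), mul_zero]
  have hFq : ∀ b, F (b + q) = F b := by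
    intro b
    simp only [hF]
    have h1 := hcop b p
    have h2 := hev b p
    rw [← hq] at h1 h2
    by_cases h : Nat.Coprime b q
    · rw [if_pos h, if_pos (h1.2 h), h2]
      have h3 : (((b + q : ℕ) : ℝ)) / q = (b : ℝ) / q + 1 := by
        push_cast
        rw [add_div, div_self hqR]
      rw [h3, ex_add_tav, ex_one_tav, mul_one]
    · rw [if_neg h, if_neg (fun h' => h (h1.1 h'))]
  have h5 := shift_tav F q hFq q'
  simp only [hF1] at h5
  rw [← mul_sum] at h5
  have h6 : ex (1 / (p : ℝ)) ≠ 1 := by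
    unfold ex
    intro h
    obtain ⟨n, hn⟩ := Complex.exp_eq_one_iff.1 h
    have hpi : (2 * Real.pi * Complex.I : ℂ) ≠ 0 := Complex.two_pi_I_ne_zero
    have h7 : ((1 / (p : ℝ) : ℝ) : ℂ) = n := by
      have h8 : ((1 / (p : ℝ) : ℝ) : ℂ) * (2 * Real.pi * Complex.I) = n * (2 * Real.pi * Complex.I) := by
        rw [← hn]
        ring
      exact mul_right_cancel₀ hpi h8
    have h9 : (1 / (p : ℝ)) = (n : ℝ) := by exact_mod_cast h7
    have h10 : (1 : ℝ) = n * p := by
      field_simp at h9
      linarith only [h9]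
    have h11 : (1 : ℤ) = n * p := by exact_mod_cast h10
    have h12 : (p : ℤ) ∣ 1 := ⟨n, by linarith only [h11]⟩
    have h13 : p ∣ 1 := by exact_mod_cast h12
    exact hp.one_lt.ne' (Nat.dvd_one.1 h13)
  rw [hS]
  have h7 : (ex (1 / (p : ℝ)) - 1) * ∑ b ∈ range q, F b = 0 := by
    rw [sub_mul, one_mul, h5, sub_self]
  rcases mul_eq_zero.1 h7 with h | h
  · exact absurd (sub_eq_zero.1 h) h6
  · exact h

/-- TAV (vanishing of Gauss sums) -/
theorem hTav : StTav := by
  intro c q hq hr hta
  obtain ⟨m, rfl⟩ := hr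
  have hm : m ≠ 0 := by
    rintro rfl
    exact hq (by simp)
  have hr0 : 0 < c.r := Nat.pos_of_ne_zero c.hr
  rw [Nat.mul_div_cancel_left m hr0]
  constructor
  · rw [Nat.squarefree_iff_prime_squarefree]
    rintro p hp ⟨k, rfl⟩
    apply hta
    have h1 : c.r * (p * p * k) = p * (c.r * (p * k)) := by ring
    rw [h1]
    refine van_tav c p (p * k) hp ?_ ?_
    · intro h
      apply hm
      rw [mul_assoc, h, mul_zero]
    · exact ⟨c.r * k, by ring⟩
  · rw [Nat.coprime_iff_gcd_eq_one]
    by_contra hne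
    obtain ⟨p, hp, hpd⟩ := Nat.exists_prime_and_dvd hne
    obtain ⟨k, hk⟩ := hpd.trans (Nat.gcd_dvd_left m c.r)
    have hpr := hpd.trans (Nat.gcd_dvd_right m c.r)
    apply hta
    have h1 : c.r * m = p * (c.r * k) := by rw [hk]; ring
    rw [h1]
    refine van_tav c p k hp ?_ ?_
    · rintro rfl
      exact hm (by rw [hk, mul_zero])
    · exact hpr.mul_right k

end Pool.Agent.Helper79.MV
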